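import Pool.Agent.X242.UW3

/-!
# Galois equivariant approximations of the values of Artin `L`-series at integers `r > 1`

`L/K` is a Galois extension of number fields with group `G`, `S` a set of finite places, and
`L_S(s, f) = exp (∑_{v ∉ S} ∑_{k ≥ 1} f(v^k) q_v^{-ks} / k)` for `f : G → ℂ` and `Re s > 1`, where `f(v^k)` is the mean of
`f` over the Frobenius coset `Frob_v^k` (Artin's formula; for characters `f = χ` this is the Artin `L`-series). For a
function `f : G → E` with values in any field `E` of characteristic `0` the coefficients `a_n(f) ∈ E` of the Dirichlet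
series are defined by the same formula. Let `r ≥ 2` be an integer and `x_N(f) = ∑_{n ≤ N²} a_n(f) / n^r ∈ E`.

Everything is unconditional (the series converge absolutely at `s = r`).

1. `L_S(s, f) = ∑ a_n(f) n^{-s}` for `Re s > 1`, and `x_N(σ ∘ f) = σ(x_N(f))` for all homomorphisms `σ : E → E'`.
2. `L_S(r, f) ≠ 0` and `x_N(f) = L_S(r, f) + O(1/N)` for `f : G → ℂ`.
3. Let `σ ∈ Aut(ℂ)`, and let `R`, `R'` be complex numbers (in the problem `R = R_φ(χ)`, `R' = R_φ(χ^σ)`, and `f` is the
   contragredient of `χ`). Then `(R / L_S(r, f))^σ = R' / L_S(r, f^σ)` if and only if `R / x_N(f)` converges to some `A` and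
   `R' / x_N(f)^σ` converges to `A^σ`: the assertion for `χ`, `σ` is that `σ` commutes with this limit.
4. Let `f` have values in a number field `E` and let `R^τ`, `τ : E → ℂ`, be complex numbers (`R^τ = R_φ(χ^τ)`). Equivalent
   are: there is an `e ∈ E` with `R^τ / L_S(r, f^τ) = τ(e)` for all `τ` (the assertion for `χ` and all its conjugates);
   there is an `e ∈ E` with `R^τ = lim τ(e x_N(f))` for all `τ`; for some `D ≥ 1` the vector `(D R^τ / τ(x_N(f)))_τ` comes
   arbitrarily close to the lattice of the integers of `E` for arbitrarily large `N`.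
-/

set_option autoImplicit false

open Filter Topology Asymptotics
open IsDedekindDomain NumberField

namespace Pool.Agent.Results.MP_7a4658_nt.EquivariantPartialSums

open Pool.Agent.X298.ST Pool.Agent.X242.DR Pool.Agent.X242.AR

/-- `x_N = ∑_{1 ≤ n ≤ N²} a_n / n^r` -/
noncomputable def approx {E : Type} [Field E] (r : ℕ) (a : ℕ → E) (N : ℕ) : E :=
  ∑ n ∈ Finset.Icc 1 (N ^ 2), a n / (n : E) ^ r

theorem approx_map {E E' : Type} [Field E] [Field E'] (σ : E →+* E') (r : ℕ) (a : ℕ → E) (N : ℕ) :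
    approx r (fun n => σ (a n)) N = σ (approx r a N) := by
  unfold approx
  rw [map_sum]
  refine Finset.sum_congr rfl fun n _ => ?_
  rw [map_div₀, map_pow, map_natCast]

/-- the tail of an absolutely convergent Dirichlet series -/
theorem approx_bigO {a : ℕ → ℂ} (h : LSeriesSummable a ((3 / 2 : ℝ) : ℂ)) {r : ℕ} (hr : 2 ≤ r) :
    (fun N : ℕ => approx r a N - LSeries a r) =O[atTop] fun N : ℕ => 1 / (N : ℝ) := by
  have hr' : LSeriesSummable a (r : ℂ) := by
    refine h.of_re_le_re ?_
    rw [Complex.ofReal_re, Complex.natCast_re]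
    have : (2 : ℝ) ≤ r := by exact_mod_cast hr
    linarith
  have hn := h.norm
  refine IsBigO.of_bound (∑' n : ℕ, ‖LSeries.term a ((3 / 2 : ℝ) : ℂ) n‖) ?_
  filter_upwards [eventually_ge_atTop 1] with N hN
  have hN0 : (0 : ℝ) < N := by exact_mod_cast hN
  have e1 : approx r a N = ∑' n : ℕ, if n ∈ Finset.Icc 1 (N ^ 2) then LSeries.term a r n else 0 := by
    rw [tsum_eq_sum (s := Finset.Icc 1 (N ^ 2)) (fun n hn => if_neg hn)]
    unfold approx
    refine Finset.sum_congr rfl fun n hn => ?_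
    rw [if_pos hn, LSeries.term_of_ne_zero (by have := (Finset.mem_Icc.1 hn).1; omega),
      Complex.cpow_natCast]
  have s1 : Summable fun n : ℕ => if n ∈ Finset.Icc 1 (N ^ 2) then LSeries.term a r n else 0 :=
    summable_of_ne_finset_zero (s := Finset.Icc 1 (N ^ 2)) fun n hn => if_neg hn
  rw [e1]
  unfold LSeries
  rw [← s1.tsum_sub hr', Real.norm_eq_abs, abs_of_pos (by positivity : 0 < 1 / (N : ℝ)), ← tsum_mul_right]
  refine tsum_of_norm_bounded (hn.mul_right _).hasSum fun n => ?_
  split_ifs with h1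
  · rw [sub_self, norm_zero]
    positivity
  · rw [zero_sub, norm_neg]
    rcases Nat.eq_zero_or_pos n with rfl | hn1
    · rw [LSeries.term_zero, norm_zero]
      positivity
    · have hn2 : N ^ 2 < n := by
        by_contra hcon
        exact h1 (Finset.mem_Icc.2 ⟨hn1, not_lt.1 hcon⟩)
      have hn0 : (0 : ℝ) < n := by exact_mod_cast hn1
      have hn1' : (1 : ℝ) ≤ n := by exact_mod_cast hn1
      rw [LSeries.norm_term_eq, LSeries.norm_term_eq, if_neg hn1.ne', if_neg hn1.ne', Complex.natCast_re,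
        Complex.ofReal_re]
      have h2 : (N : ℝ) ≤ (n : ℝ) ^ (1 / 2 : ℝ) := by
        rw [← Real.sqrt_eq_rpow]
        refine Real.le_sqrt_of_sq_le ?_
        exact_mod_cast hn2.le
      have h3 : (n : ℝ) ^ (3 / 2 : ℝ) * N ≤ (n : ℝ) ^ (r : ℝ) := by
        calc (n : ℝ) ^ (3 / 2 : ℝ) * N ≤ (n : ℝ) ^ (3 / 2 : ℝ) * (n : ℝ) ^ (1 / 2 : ℝ) :=
              mul_le_mul_of_nonneg_left h2 (Real.rpow_nonneg hn0.le _)
          _ = (n : ℝ) ^ (2 : ℝ) := by
              rw [← Real.rpow_add hn0]
              norm_num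
          _ ≤ (n : ℝ) ^ (r : ℝ) := Real.rpow_le_rpow_of_exponent_le hn1' (by exact_mod_cast hr)
      rw [div_mul_div_comm, mul_one]
      exact div_le_div_of_nonneg_left (norm_nonneg _) (by positivity) h3

/-- quotients of the approximations -/
theorem quot_bigO {x : ℕ → ℂ} {l R : ℂ} (hl : l ≠ 0)
    (hO : (fun N : ℕ => x N - l) =O[atTop] fun N : ℕ => 1 / (N : ℝ))
    (hx : Tendsto x atTop (𝓝 l)) :
    (fun T : ℝ => R / x ⌊T⌋₊ - R / l) =O[atTop] fun T : ℝ => 1 / T := by
  have h1 : (fun N : ℕ => R / x N - R / l) =O[atTop] fun N : ℕ => 1 / (N : ℝ) := by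
    have h2 : ∀ᶠ N in atTop, x N ≠ 0 := hx.eventually_ne hl
    have h3 : (fun N : ℕ => (-R / (x N * l)) * (x N - l)) =O[atTop]
        fun N : ℕ => (1 : ℝ) * (1 / (N : ℝ)) := by
      refine IsBigO.mul ?_ hO
      have h4 : Tendsto (fun N : ℕ => -R / (x N * l)) atTop (𝓝 (-R / (l * l))) :=
        tendsto_const_nhds.div (hx.mul_const l) (mul_ne_zero hl hl)
      exact h4.isBigO_one ℝ
    simp only [one_mul] at h3
    refine h3.congr' ?_ EventuallyEq.rfl
    filter_upwards [h2] with N hN
    field_simp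
    ring
  have h2 := h1.comp_tendsto (tendsto_nat_floor_atTop (α := ℝ))
  refine IsBigO.trans h2 ?_
  refine IsBigO.of_bound 2 ?_
  filter_upwards [eventually_ge_atTop (1 : ℝ)] with T hT
  have h3 : T < ⌊T⌋₊ + 1 := Nat.lt_floor_add_one T
  have h4 : 1 ≤ ⌊T⌋₊ := Nat.le_floor (by simpa using hT)
  have h5 : (1 : ℝ) ≤ (⌊T⌋₊ : ℝ) := by exact_mod_cast h4
  simp only [Function.comp_def]
  rw [Real.norm_eq_abs, Real.norm_eq_abs, abs_of_pos (by positivity), abs_of_pos (by positivity),
    mul_one_div, div_le_div_iff₀ (by positivity) (by positivity)]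
  linarith

section

variable {K L : Type} [Field K] [NumberField K] [Field L] [NumberField L] [Algebra K L]
  {S : Set (HeightOneSpectrum (𝓞 K))}

/-- `L_S(r, f)` -/
noncomputable def lval (P : Places S → Ideal (𝓞 L)) (r : ℕ) (f : (L ≃ₐ[K] L) → ℂ) : ℂ :=
  Complex.exp (logL P f r)

/-- There is an `e ∈ E` with `R^τ / L_S(r, f^τ) = τ(e)` for all `τ : E → ℂ`. -/
def HasElement {E : Type} [Field E] (P : Places S → Ideal (𝓞 L)) (r : ℕ) (f : (L ≃ₐ[K] L) → E)
    (R : (E →+* ℂ) → ℂ) : Prop :=
  ∃ e : E, ∀ τ : E →+* ℂ, R τ / lval P r (fun g => τ (f g)) = τ e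

theorem lval_ne (P : Places S → Ideal (𝓞 L)) (r : ℕ) (f : (L ≃ₐ[K] L) → ℂ) : lval P r f ≠ 0 :=
  Complex.exp_ne_zero _

end

/-- **Galois equivariant approximations of `L_S(r, χ)`, `r > 1`.** -/
theorem result :
    ∀ r : ℕ, 2 ≤ r →
    ∀ (K L : Type) [Field K] [NumberField K] [Field L] [NumberField L] [Algebra K L] [IsGalois K L]
      (S : Set (HeightOneSpectrum (𝓞 K))) (P : Places S → Ideal (𝓞 L)), IsAbove P →
    -- 1. the coefficients of the Artin `L`-series and the approximations
    (((∀ v k, (frob P v k).Nonempty) ∧ (∀ n, {y : Words S | size y = n}.Finite) ∧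
        ∀ (f : (L ≃ₐ[K] L) → ℂ) (s : ℂ), 1 < s.re →
          LSeriesSummable (coef P f) s ∧ LSeries (coef P f) s = Complex.exp (logL P f s)) ∧
      ∀ (E E' : Type) [Field E] [CharZero E] [Field E'] [CharZero E'] (σ : E →+* E')
        (f : (L ≃ₐ[K] L) → E) (N : ℕ),
        approx r (coef P fun g => σ (f g)) N = σ (approx r (coef P f) N)) ∧
    -- 2. the values
    (∀ f : (L ≃ₐ[K] L) → ℂ, lval P r f ≠ 0 ∧
      (fun N : ℕ => approx r (coef P f) N - lval P r f) =O[atTop]
        fun N : ℕ => 1 / (N : ℝ)) ∧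
    -- 3. a character and an automorphism of `ℂ`
    (∀ (f : (L ≃ₐ[K] L) → ℂ) (σ : ℂ ≃+* ℂ) (R R' : ℂ),
      (σ (R / lval P r f) = R' / lval P r (fun g => σ (f g)) ↔
        ∃ A : ℂ, Tendsto (fun N => R / approx r (coef P f) N) atTop (𝓝 A) ∧
          Tendsto (fun N => R' / σ (approx r (coef P f) N)) atTop (𝓝 (σ A)))) ∧
    -- 4. a character with values in a number field
    (∀ (E : Type) [Field E] [NumberField E] (f : (L ≃ₐ[K] L) → E) (R : (E →+* ℂ) → ℂ),
      (HasElement P r f R ↔
        ∃ e : E, ∀ τ : E →+* ℂ, Tendsto (fun N => τ (e * approx r (coef P f) N)) atTop (𝓝 (R τ))) ∧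
      (HasElement P r f R ↔
        ∃ D : ℕ, 1 ≤ D ∧ ∀ ε : ℝ, 0 < ε → ∀ N₀ : ℕ, ∃ N ≥ N₀, ∃ z : 𝓞 E, ∀ τ : E →+* ℂ,
          ‖D * (R τ / τ (approx r (coef P f) N)) - τ (z : E)‖ < ε)) := by
  intro r hr K L _ _ _ _ _ _ S P hP
  have hmap : ∀ (E E' : Type) [Field E] [CharZero E] [Field E'] [CharZero E'] (σ : E →+* E')
      (f : (L ≃ₐ[K] L) → E) (N : ℕ),
      approx r (coef P fun g => σ (f g)) N = σ (approx r (coef P f) N) := by
    intro E E' _ _ _ _ σ f N
    have e : (coef P fun g => σ (f g)) = fun n => σ (coef P f n) := by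
      funext n
      exact coef_map σ f n
    rw [e, approx_map]
  have hval : ∀ f : (L ≃ₐ[K] L) → ℂ, lval P r f ≠ 0 ∧
      (fun N : ℕ => approx r (coef P f) N - lval P r f) =O[atTop]
        (fun N : ℕ => 1 / (N : ℝ)) := by
    intro f
    refine ⟨lval_ne P r _, ?_⟩
    have hr1 : 1 < ((r : ℕ) : ℂ).re := by
      rw [Complex.natCast_re]
      exact_mod_cast (by omega : 1 < r)
    unfold lval
    rw [← (series P f hr1).2]
    refine approx_bigO (series P f (s := ((3 / 2 : ℝ) : ℂ)) ?_).1 hr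
    rw [Complex.ofReal_re]
    norm_num
  have hlim : ∀ f : (L ≃ₐ[K] L) → ℂ, Tendsto (fun N : ℕ => approx r (coef P f) N) atTop
      (𝓝 (lval P r f)) := by
    intro f
    have h4 : Tendsto (fun N : ℕ => approx r (coef P f) N - lval P r f) atTop (𝓝 0) :=
      (hval f).2.trans_tendsto tendsto_one_div_atTop_nhds_zero_nat
    have h5 := h4.add_const (lval P r f)
    simpa using h5
  refine ⟨⟨⟨frob_nonempty hP, finite_size, fun f s hs => series P f hs⟩, hmap⟩, hval, ?_, ?_⟩
  · intro f σ R R'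
    have h3 := hlim f
    have h3' := hlim fun g => σ (f g)
    have e1 : (fun N : ℕ => approx r (coef P fun g => σ (f g)) N) =
        fun N => σ (approx r (coef P f) N) := by
      funext N
      exact hmap ℂ ℂ (σ : ℂ →+* ℂ) f N
    rw [e1] at h3'
    have t1 : Tendsto (fun N => R / approx r (coef P f) N) atTop (𝓝 (R / lval P r f)) :=
      tendsto_const_nhds.div h3 (lval_ne P r _)
    have t2 : Tendsto (fun N => R' / σ (approx r (coef P f) N)) atTop
        (𝓝 (R' / lval P r (fun g => σ (f g)))) :=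
      tendsto_const_nhds.div h3' (lval_ne P r _)
    constructor
    · intro h4
      refine ⟨R / lval P r f, t1, ?_⟩
      rw [h4]
      exact t2
    · rintro ⟨A, h4, h5⟩
      rw [tendsto_nhds_unique t1 h4, tendsto_nhds_unique t2 h5]
  · intro E _ _ f R
    have h1 : ∀ τ : E →+* ℂ,
        (fun N : ℕ => τ (approx r (coef P f) N) - lval P r (fun g => τ (f g))) =O[atTop]
          (fun N : ℕ => 1 / (N : ℝ)) ∧
        Tendsto (fun N : ℕ => τ (approx r (coef P f) N)) atTop
          (𝓝 (lval P r (fun g => τ (f g)))) := by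
      intro τ
      have h2 := (hval fun g => τ (f g)).2
      have h3 := hlim fun g => τ (f g)
      simp only [hmap E ℂ τ f] at h2 h3
      exact ⟨h2, h3⟩
    constructor
    · constructor
      · rintro ⟨e, he⟩
        refine ⟨e, fun τ => ?_⟩
        have h2 := (h1 τ).2.const_mul (τ e)
        have h3 : τ e * lval P r (fun g => τ (f g)) = R τ := by
          rw [← he τ]
          exact div_mul_cancel₀ _ (lval_ne P r _)
        rw [h3] at h2
        refine h2.congr fun N => ?_
        rw [map_mul]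
      · rintro ⟨e, he⟩
        refine ⟨e, fun τ => ?_⟩
        have h2 := (h1 τ).2.const_mul (τ e)
        have h3 := he τ
        simp only [map_mul] at h3
        have h4 := tendsto_nhds_unique h3 h2
        rw [h4]
        exact mul_div_cancel_right₀ _ (lval_ne P r _)
    · unfold HasElement
      rw [(lattice (b := fun τ T => R τ / τ (approx r (coef P f) ⌊T⌋₊))
        (A := fun τ => R τ / lval P r (fun g => τ (f g)))
        fun τ => quot_bigO (x := fun N => τ (approx r (coef P f) N)) (lval_ne P r _) (h1 τ).1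
          (h1 τ).2).1]
      refine exists_congr fun D => and_congr_right fun _ => ?_
      constructor
      · intro h2 ε hε N₀
        obtain ⟨T, hT, z, hz⟩ := h2 ε hε N₀
        exact ⟨⌊T⌋₊, Nat.le_floor hT, z, hz⟩
      · intro h2 ε hε T₀
        obtain ⟨N, hN, z, hz⟩ := h2 ε hε ⌈T₀⌉₊
        refine ⟨N, (Nat.le_ceil T₀).trans (by exact_mod_cast hN), z, ?_⟩
        simpa using hz

end Pool.Agent.Results.MP_7a4658_nt.EquivariantPartialSums
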